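import Pool.Agent.Helper87_UT.Stmts
import Pool.Agent.Helper76_Bisect.Round

/-!
# UT, module BLW: cuts of a blow-up
-/

set_option autoImplicit false

namespace Pool.Agent.UT.H69

open Finset
open Pool.Agent.Helper76_Bisect

section
open Classical

/-- the part of `S` in the class `i` -/
noncomputable def cls {K ν : ℕ} (S : Finset (Fin (K * ν))) (i : Fin K) : ℝ :=
  ∑ a : Fin ν, chi S (finProdFinEquiv (i, a))

theorem divNat_equiv {K ν : ℕ} (i : Fin K) (a : Fin ν) :
    (finProdFinEquiv (i, a)).divNat = i := by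
  have h : finProdFinEquiv.symm (finProdFinEquiv (i, a)) = (i, a) :=
    Equiv.symm_apply_apply _ _
  exact congrArg Prod.fst h

theorem sum_blow {K ν : ℕ} (g : Fin (K * ν) → ℝ) :
    ∑ u, g u = ∑ i : Fin K, ∑ a : Fin ν, g (finProdFinEquiv (i, a)) := by
  rw [← Equiv.sum_comp finProdFinEquiv, Fintype.sum_prod_type]

theorem cut_blow {K ν : ℕ} (Γ : SimpleGraph (Fin K)) (S : Finset (Fin (K * ν))) :
    (cutEdges (blow Γ ν) S : ℝ) = ∑ i, ∑ j, W Γ i j * (cls S i * ((ν : ℝ) - cls S j)) := by
  rw [cutEdges_real]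
  have h1 : ∀ u v : Fin (K * ν), chi S u * (1 - chi S v) *
      (if (blow Γ ν).Adj u v then (1 : ℝ) else 0) =
      W Γ u.divNat v.divNat * (chi S u * (1 - chi S v)) := by
    intro u v
    by_cases huv : u = v
    · subst huv
      rw [chi_mul_one_sub]; simp
    · have h2 : (blow Γ ν).Adj u v ↔ (u.divNat = v.divNat ∨ Γ.Adj u.divNat v.divNat) := by
        unfold blow typeGraph
        simp only [ne_eq, huv, not_false_eq_true, true_and]
      unfold W
      by_cases h3 : (u.divNat = v.divNat ∨ Γ.Adj u.divNat v.divNat)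
      · rw [if_pos (h2.2 h3), if_pos h3]; ring
      · rw [if_neg (fun h => h3 (h2.1 h)), if_neg h3]; ring
  simp only [h1]
  rw [sum_blow]
  refine Finset.sum_congr rfl fun i _ => ?_
  have h4 : ∀ a : Fin ν, ∑ v : Fin (K * ν), W Γ (finProdFinEquiv (i, a)).divNat v.divNat *
      (chi S (finProdFinEquiv (i, a)) * (1 - chi S v)) =
      ∑ j : Fin K, ∑ b : Fin ν, W Γ i j *
      (chi S (finProdFinEquiv (i, a)) * (1 - chi S (finProdFinEquiv (j, b)))) := by
    intro a
    rw [sum_blow]
    refine Finset.sum_congr rfl fun j _ => Finset.sum_congr rfl fun b _ => ?_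
    rw [divNat_equiv, divNat_equiv]
  simp only [h4]
  rw [Finset.sum_comm]
  refine Finset.sum_congr rfl fun j _ => ?_
  have h5 : (ν : ℝ) - cls S j = ∑ b : Fin ν, (1 - chi S (finProdFinEquiv (j, b))) := by
    rw [Finset.sum_sub_distrib]
    simp [cls]
  rw [h5]
  unfold cls
  rw [Finset.sum_mul_sum, Finset.mul_sum]
  refine Finset.sum_congr rfl fun a _ => ?_
  rw [Finset.mul_sum]

theorem cls_nonneg {K ν : ℕ} (S : Finset (Fin (K * ν))) (i : Fin K) : 0 ≤ cls S i :=
  Finset.sum_nonneg fun a _ => chi_nonneg S _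

theorem cls_le {K ν : ℕ} (S : Finset (Fin (K * ν))) (i : Fin K) : cls S i ≤ ν := by
  unfold cls
  calc ∑ a : Fin ν, chi S (finProdFinEquiv (i, a)) ≤ ∑ _a : Fin ν, (1 : ℝ) :=
        Finset.sum_le_sum fun a _ => chi_le_one S _
    _ = ν := by simp

theorem sum_cls {K ν : ℕ} (S : Finset (Fin (K * ν))) : ∑ i, cls S i = S.card := by
  rw [← sum_chi, sum_blow]
  rfl

theorem cut_quad {K ν : ℕ} (hν : 0 < ν) (Γ : SimpleGraph (Fin K)) (S : Finset (Fin (K * ν))) :
    (cutEdges (blow Γ ν) S : ℝ) = (ν : ℝ) ^ 2 * quad Γ (fun i => cls S i / ν) := by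
  have hν' : (ν : ℝ) ≠ 0 := by exact_mod_cast hν.ne'
  rw [cut_blow]
  unfold quad
  rw [Finset.mul_sum]
  refine Finset.sum_congr rfl fun i _ => ?_
  rw [Finset.mul_sum]
  refine Finset.sum_congr rfl fun j _ => ?_
  field_simp

theorem quad_chi {K : ℕ} (Γ : SimpleGraph (Fin K)) (A : Finset (Fin K)) :
    quad Γ (chi A) = cutEdges Γ A := by
  rw [cutEdges_real]
  unfold quad
  refine Finset.sum_congr rfl fun i _ => Finset.sum_congr rfl fun j _ => ?_
  by_cases hij : i = j
  · subst hij
    rw [chi_mul_one_sub]; simp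
  · simp only [W, hij, false_or]
    ring

/-- **Module BLW** -/
theorem blw : BlwStmt := by
  classical
  intro K ν Γ r hK hKe hν
  have hν' : (0 : ℝ) < ν := by exact_mod_cast hν
  have hν2 : (0 : ℝ) < (ν : ℝ) ^ 2 := by positivity
  constructor
  · rintro ⟨A, hA, hcut⟩
    set S : Finset (Fin (K * ν)) := univ.filter (fun u => u.divNat ∈ A) with hS
    have hchi : ∀ i a, chi S (finProdFinEquiv (i, a)) = chi A i := by
      intro i a
      unfold chi
      have : finProdFinEquiv (i, a) ∈ S ↔ i ∈ A := by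
        rw [hS, Finset.mem_filter, divNat_equiv]
        simp
      by_cases h : i ∈ A
      · rw [if_pos (this.2 h), if_pos h]
      · rw [if_neg (fun h' => h (this.1 h')), if_neg h]
    have hcls : ∀ i, cls S i = ν * chi A i := by
      intro i
      unfold cls
      simp only [hchi]
      simp
    refine ⟨S, ?_, ?_⟩
    · have h1 : (S.card : ℝ) = ν * A.card := by
        rw [← sum_cls, ← sum_chi, Finset.mul_sum]
        exact Finset.sum_congr rfl fun i _ => hcls i
      have h2 : S.card = ν * A.card := by exact_mod_cast h1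
      rw [h2]
      calc 2 * (ν * A.card) = (2 * A.card) * ν := by ring
        _ = K * ν := by rw [hA]
    · rw [cut_quad hν]
      have h3 : (fun i => cls S i / ν) = chi A := by
        funext i
        rw [hcls]
        field_simp
      rw [h3, quad_chi]
      push_cast
      calc (ν : ℝ) ^ 2 * (cutEdges Γ A : ℝ) ≤ (ν : ℝ) ^ 2 * (r * (K : ℝ) ^ 2) :=
            mul_le_mul_of_nonneg_left hcut hν2.le
        _ = r * ((K : ℝ) * ν) ^ 2 := by ring
  · intro hno S hScard
    obtain ⟨h, hh⟩ := hKe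
    rw [cut_quad hν]
    have h1 : r * (K : ℝ) ^ 2 ≤ quad Γ (fun i => cls S i / ν) := by
      refine quad_ge Γ h (r * (K : ℝ) ^ 2) (fun A hA => hno A (by omega)) _ _
        (fun k => ⟨?_, ?_⟩) ?_ le_rfl
      · exact div_nonneg (cls_nonneg S k) hν'.le
      · rw [div_le_one hν']; exact cls_le S k
      · rw [← Finset.sum_div, sum_cls]
        rw [div_eq_iff hν'.ne']
        have h2 : 2 * S.card = 2 * (h * ν) := by rw [hScard, hh]; ring
        have h3 : S.card = h * ν := by omega
        rw [h3]; push_cast; ring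
    push_cast
    calc r * ((K : ℝ) * ν) ^ 2 = (ν : ℝ) ^ 2 * (r * (K : ℝ) ^ 2) := by ring
      _ ≤ _ := mul_le_mul_of_nonneg_left h1 hν2.le

end

end Pool.Agent.UT.H69
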