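import Pool.Agent.Helper87_UT.Stmts
import Pool.Agent.Helper76_Bisect.Conc

/-!
# UT, module LIM: samples from a blow-up
-/

set_option autoImplicit false

namespace Pool.Agent.UT.H69

open Finset
open Pool.Agent.Helper76_Bisect

section
open Classical

/-- a function to a blow-up is a function to the units and a function to the class -/
def blowEquiv (K ν q : ℕ) : (Fin q → Fin K) × (Fin q → Fin ν) ≃ (Fin q → Fin (K * ν)) where
  toFun z i := finProdFinEquiv (z.1 i, z.2 i)
  invFun x := (fun i => (x i).divNat, fun i => (x i).modNat)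
  left_inv z := by
    refine Prod.ext ?_ ?_
    · funext i
      exact congrArg Prod.fst (Equiv.symm_apply_apply finProdFinEquiv (z.1 i, z.2 i))
    · funext i
      exact congrArg Prod.snd (Equiv.symm_apply_apply finProdFinEquiv (z.1 i, z.2 i))
  right_inv x := by
    funext i
    exact Equiv.apply_symm_apply finProdFinEquiv (x i)

theorem sum_divNat {K ν q : ℕ} (F : (Fin q → Fin K) → ℝ) :
    ∑ x : Fin q → Fin (K * ν), F (fun i => (x i).divNat) = (ν : ℝ) ^ q * ∑ τ, F τ := by
  rw [← Equiv.sum_comp (blowEquiv K ν q), Fintype.sum_prod_type]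
  have h : ∀ (τ : Fin q → Fin K) (y : Fin q → Fin ν),
      F (fun i => ((blowEquiv K ν q (τ, y)) i).divNat) = F τ := by
    intro τ y
    congr 1
    funext i
    exact congrArg Prod.fst (Equiv.symm_apply_apply finProdFinEquiv (τ i, y i))
  simp only [h]
  simp [Finset.mul_sum]

theorem comap_blow {K ν q : ℕ} (Γ : SimpleGraph (Fin K)) (T : SimpleGraph (Fin (K * ν)))
    (x : Fin q → Fin (K * ν)) (hx : Function.Injective x) :
    (symmDiff (blow Γ ν) T).comap x =
      symmDiff (typeGraph Γ (fun i => (x i).divNat)) (T.comap x) := by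
  ext i j
  rw [SimpleGraph.comap_adj, adj_symmDiff, adj_symmDiff, SimpleGraph.comap_adj]
  have h : (blow Γ ν).Adj (x i) (x j) ↔ (typeGraph Γ (fun i => (x i).divNat)).Adj i j := by
    unfold blow typeGraph
    simp only [ne_eq, hx.eq_iff]
  rw [h]

/-- the average over the perturbations -/
noncomputable def favg {n : ℕ} (σ : ℝ) (g : SimpleGraph (Fin n) → ℝ) : ℝ :=
  ∑ T : SimpleGraph (Fin n), toggleProb σ T * g T

theorem favg_mem {n : ℕ} {σ : ℝ} (h0 : 0 ≤ σ) (h1 : σ ≤ 1) (g : SimpleGraph (Fin n) → ℝ)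
    (hg : ∀ T, 0 ≤ g T ∧ g T ≤ 1) : 0 ≤ favg σ g ∧ favg σ g ≤ 1 := by
  constructor
  · exact Finset.sum_nonneg fun T _ => mul_nonneg (toggleProb_nonneg h0 h1 T) (hg T).1
  · calc favg σ g ≤ ∑ T : SimpleGraph (Fin n), toggleProb σ T :=
          Finset.sum_le_sum fun T _ => by
            have := mul_le_mul_of_nonneg_left (hg T).2 (toggleProb_nonneg h0 h1 T)
            linarith
      _ = 1 := sum_toggleProb σ

/-- **Module LIM** -/
theorem lim (hcmp : CmpStmt) (hinj : InjStmt) : LimStmt := by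
  classical
  intro K q ν Γ σ f hK hν h0 h1 hf
  set n := K * ν with hn
  have hn0 : 0 < n := Nat.mul_pos hK hν
  have hnR : (0 : ℝ) < n := by exact_mod_cast hn0
  have hnq : (0 : ℝ) < (n : ℝ) ^ q := by positivity
  set F : (Fin q → Fin K) → ℝ := fun τ => favg σ fun T => f (symmDiff (typeGraph Γ τ) T) with hF
  set Φ : (Fin q → Fin n) → ℝ := fun x => favg σ fun T => f ((symmDiff (blow Γ ν) T).comap x)
    with hΦ
  have hsmp : smpAvg (blow Γ ν) σ f = (∑ x, Φ x) / (n : ℝ) ^ q := by
    unfold smpAvg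
    congr 1
    simp only [hΦ, favg]
    rw [Finset.sum_comm]
    refine Finset.sum_congr rfl fun T _ => ?_
    rw [Finset.mul_sum]
  have hlim : limAvg Γ σ f = (∑ τ, F τ) / (K : ℝ) ^ q := by
    unfold limAvg
    rfl
  have hKR : (0 : ℝ) < K := by exact_mod_cast hK
  have hνR : (0 : ℝ) < ν := by exact_mod_cast hν
  have hlim' : limAvg Γ σ f = (∑ x : Fin q → Fin n, F (fun i => (x i).divNat)) / (n : ℝ) ^ q := by
    rw [hlim, sum_divNat F, hn]
    push_cast
    rw [mul_pow]
    field_simp
  have hF01 : ∀ τ, 0 ≤ F τ ∧ F τ ≤ 1 := fun τ => favg_mem h0 h1 _ fun T => hf _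
  have hΦ01 : ∀ x, 0 ≤ Φ x ∧ Φ x ≤ 1 := fun x => favg_mem h0 h1 _ fun T => hf _
  have heq : ∀ x : Fin q → Fin n, Function.Injective x → Φ x = F (fun i => (x i).divNat) := by
    intro x hx
    simp only [hΦ, hF, favg]
    have h := hcmp n q x hx σ (fun H => f (symmDiff (typeGraph Γ (fun i => (x i).divNat)) H))
    rw [← h]
    refine Finset.sum_congr rfl fun T _ => ?_
    rw [comap_blow Γ T x hx]
  have hdiff : |(∑ x, Φ x) - ∑ x : Fin q → Fin n, F (fun i => (x i).divNat)| ≤
      ((univ.filter fun x : Fin q → Fin n => ¬ Function.Injective x).card : ℝ) := by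
    rw [← Finset.sum_sub_distrib]
    calc |∑ x, (Φ x - F (fun i => (x i).divNat))|
        ≤ ∑ x, |Φ x - F (fun i => (x i).divNat)| := Finset.abs_sum_le_sum_abs _ _
      _ ≤ ∑ x : Fin q → Fin n, (if ¬ Function.Injective x then (1 : ℝ) else 0) := by
          refine Finset.sum_le_sum fun x _ => ?_
          by_cases hx : Function.Injective x
          · rw [if_neg (not_not.2 hx), heq x hx]; simp
          · rw [if_pos hx, abs_le]
            have a1 := hΦ01 x
            have a2 := hF01 (fun i => (x i).divNat)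
            constructor <;> linarith [a1.1, a1.2, a2.1, a2.2]
      _ = _ := by rw [Finset.sum_boole]
  have hI := hinj n q
  rw [hsmp, hlim', ← sub_div, abs_div, abs_of_pos hnq, div_le_div_iff₀ hnq hnR]
  have hI' : (n : ℝ) * ((univ.filter fun x : Fin q → Fin n =>
      ¬ Function.Injective x).card : ℝ) ≤ (q : ℝ) ^ 2 * (n : ℝ) ^ q := by
    convert hI
  calc |(∑ x, Φ x) - ∑ x : Fin q → Fin n, F (fun i => (x i).divNat)| * (n : ℝ)
      ≤ ((univ.filter fun x : Fin q → Fin n => ¬ Function.Injective x).card : ℝ) * n :=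
        mul_le_mul_of_nonneg_right hdiff hnR.le
    _ ≤ (q : ℝ) ^ 2 * (n : ℝ) ^ q := by rw [mul_comm]; exact hI'

end

end Pool.Agent.UT.H69
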